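import Pool.Agent.Helper36.Pin.Defs2

/-!
# 3-connectivity and neighbour sets
-/

namespace Pool.Agent.Helper36.Pin

open Finset Module

variable {V : Type} [Fintype V] [DecidableEq V]

/-- A set of vertices of a connected graph which contains a vertex and is closed under adjacency
is everything. -/
theorem closed_of_connected {W : Type} {H : SimpleGraph W} (hc : H.Connected) (S : Set W)
    (u : W) (hu : u ∈ S) (hcl : ∀ x ∈ S, ∀ y, H.Adj x y → y ∈ S) (v : W) : v ∈ S := by
  obtain ⟨p⟩ := hc.preconnected u v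
  induction p with
  | nil => exact hu
  | cons h p ih => exact ih (hcl _ hu _ h)

theorem threeConn_iff (G : SimpleGraph V) (X P : Finset V) (hPX : P ⊆ X)
    (hK : ∀ u ∈ P, ∀ v ∈ P, u ≠ v → G.Adj u v)
    (hcl : ∀ u ∈ X \ P, ∀ v, G.Adj u v → v ∈ X) :
    ThreeConn G X ↔ 4 ≤ X.card ∧
      ∀ S ⊆ X \ P, S.Nonempty → S ∪ nbr G S = X ∨ 3 ≤ (nbr G S).card := by
  classical
  constructor
  · rintro ⟨h4, hT⟩
    refine ⟨h4, ?_⟩
    intro S hS hS0
    by_contra hcon
    push Not at hcon
    obtain ⟨hne, hlt⟩ := hcon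
    have hSX : S ⊆ X := hS.trans sdiff_subset
    have hTX : nbr G S ⊆ X := by
      intro v hv
      obtain ⟨_, u, hu, huv⟩ := mem_nbr.mp hv
      exact hcl u (hS hu) v huv
    have hconn := hT (nbr G S) hTX (by omega)
    obtain ⟨u, hu⟩ := hS0
    have huT : u ∈ X \ nbr G S := mem_sdiff.mpr ⟨hSX hu, fun h => (mem_nbr.mp h).1 hu⟩
    have hall : ∀ v ∈ X \ nbr G S, v ∈ S := by
      intro v hv
      have := closed_of_connected hconn {x | (x : V) ∈ S} ⟨u, huT⟩ hu (by
        intro x hx y hxy
        have hxy' : G.Adj (x : V) (y : V) := hxy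
        by_contra hy
        have hy2 : (y : V) ∈ nbr G S := mem_nbr.mpr ⟨hy, x, hx, hxy'⟩
        have hy3 := y.2
        rw [Finset.mem_coe, mem_sdiff] at hy3
        exact hy3.2 hy2) ⟨v, hv⟩
      exact this
    apply hne
    apply le_antisymm
    · exact union_subset hSX hTX
    · intro v hv
      by_cases hvT : v ∈ nbr G S
      · exact mem_union_right _ hvT
      · exact mem_union_left _ (hall v (mem_sdiff.mpr ⟨hv, hvT⟩))
  · rintro ⟨h4, hS⟩
    refine ⟨h4, ?_⟩
    intro T hTX hT2
    have hcard : 2 ≤ (X \ T).card := by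
      rw [card_sdiff_of_subset hTX]
      omega
    have hne0 : (X \ T).Nonempty := by
      rw [← card_pos]
      omega
    obtain ⟨z, hz⟩ := hne0
    have : Nonempty ((X \ T : Finset V) : Set V) := ⟨⟨z, hz⟩⟩
    refine SimpleGraph.Connected.mk ?_
    -- the reachable sets
    set H := G.induce ((X \ T : Finset V) : Set V) with hH
    let R : ((X \ T : Finset V) : Set V) → Finset V := fun u =>
      univ.filter (fun x => ∃ hx : x ∈ ((X \ T : Finset V) : Set V), H.Reachable u ⟨x, hx⟩)
    have hR : ∀ u x, x ∈ R u ↔ ∃ hx : x ∈ ((X \ T : Finset V) : Set V),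
        H.Reachable u ⟨x, hx⟩ := by
      intro u x
      simp [R]
    have hRX : ∀ u x, x ∈ R u → x ∈ X \ T := by
      intro u x hx
      obtain ⟨h, _⟩ := (hR u x).mp hx
      exact h
    have key : ∀ u : ((X \ T : Finset V) : Set V), Disjoint (R u) P → ∀ v, H.Reachable u v := by
      intro u hd v
      by_contra hnr
      have hsub : R u ⊆ X \ P := by
        intro x hx
        exact mem_sdiff.mpr ⟨(mem_sdiff.mp (hRX u x hx)).1, Finset.disjoint_left.mp hd hx⟩
      have hnT : nbr G (R u) ⊆ T := by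
        intro w hw
        obtain ⟨hw1, x, hx, hxw⟩ := mem_nbr.mp hw
        by_contra hwT
        apply hw1
        have hwX : w ∈ X := hcl x (hsub hx) w hxw
        have hwXT : w ∈ X \ T := mem_sdiff.mpr ⟨hwX, hwT⟩
        obtain ⟨hx1, hx2⟩ := (hR u x).mp hx
        rw [hR]
        refine ⟨hwXT, hx2.trans ?_⟩
        apply SimpleGraph.Adj.reachable
        exact hxw
      have hu : (u : V) ∈ R u := by
        rw [hR]
        exact ⟨u.2, SimpleGraph.Reachable.refl _⟩
      rcases hS (R u) hsub ⟨u, hu⟩ with h | h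
      · have hv : (v : V) ∈ R u ∪ nbr G (R u) := by
          rw [h]
          have := v.2
          rw [Finset.mem_coe, mem_sdiff] at this
          exact this.1
        rcases mem_union.mp hv with hv | hv
        · obtain ⟨_, hv2⟩ := (hR u v).mp hv
          exact hnr hv2
        · have := v.2
          rw [Finset.mem_coe, mem_sdiff] at this
          exact this.2 (hnT hv)
      · have := card_le_card hnT
        omega
    intro u v
    by_cases hu : Disjoint (R u) P
    · exact key u hu v
    by_cases hv : Disjoint (R v) P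
    · exact (key v hv u).symm
    rw [Finset.not_disjoint_iff] at hu hv
    obtain ⟨p, hp, hpP⟩ := hu
    obtain ⟨q, hq, hqP⟩ := hv
    obtain ⟨hp1, hp2⟩ := (hR u p).mp hp
    obtain ⟨hq1, hq2⟩ := (hR v q).mp hq
    by_cases hpq : p = q
    · subst hpq
      exact hp2.trans hq2.symm
    · refine (hp2.trans ?_).trans hq2.symm
      apply SimpleGraph.Adj.reachable
      exact hK p hpP q hqP hpq

theorem nbr_submod (G : SimpleGraph V) (S S' : Finset V) :
    (nbr G (S ∪ S')).card + (nbr G (S ∩ S')).card ≤ (nbr G S).card + (nbr G S').card := by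
  rw [← card_union_add_card_inter (nbr G (S ∪ S')) (nbr G (S ∩ S')),
    ← card_union_add_card_inter (nbr G S) (nbr G S')]
  apply Nat.add_le_add
  · apply card_le_card
    intro v hv
    rw [mem_union, mem_nbr, mem_nbr] at hv ⊢
    rcases hv with ⟨h1, u, hu, huv⟩ | ⟨h1, u, hu, huv⟩
    · rw [mem_union, not_or] at h1
      rcases mem_union.mp hu with hu | hu
      · exact Or.inl ⟨h1.1, u, hu, huv⟩
      · exact Or.inr ⟨h1.2, u, hu, huv⟩
    · rw [mem_inter] at hu
      by_cases hv : v ∈ S
      · right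
        exact ⟨fun h => h1 (mem_inter.mpr ⟨hv, h⟩), u, hu.2, huv⟩
      · left
        exact ⟨hv, u, hu.1, huv⟩
  · apply card_le_card
    intro v hv
    rw [mem_inter, mem_nbr, mem_nbr] at hv ⊢
    obtain ⟨⟨h1, _⟩, ⟨_, u, hu, huv⟩⟩ := hv
    rw [mem_union, not_or] at h1
    rw [mem_inter] at hu
    exact ⟨⟨h1.1, u, hu.1, huv⟩, ⟨h1.2, u, hu.2, huv⟩⟩

end Pool.Agent.Helper36.Pin
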