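import Pool.Agent.Helper36.Pin.Defs

/-!
# A generic hyperplane and Rado's lemma (Dilworth truncation)
-/

namespace Pool.Agent.Helper36.Pin

open Finset Module

/-- A linear functional which does not vanish on finitely many nonzero vectors. -/
theorem exists_dual_avoid {K W : Type} [Field K] [Infinite K] [AddCommGroup W] [Module K W]
    (vs : Finset W) (hvs : ∀ v ∈ vs, v ≠ 0) : ∃ h : W →ₗ[K] K, ∀ v ∈ vs, h v ≠ 0 := by
  obtain ⟨f, hf⟩ := Module.exists_dual_forall_apply_ne_zero (K := K) (fun v : vs => (v : W))
    (fun v => hvs v v.2)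
  exact ⟨f, fun v hv => hf ⟨v, hv⟩⟩

/-- The conclusion of the main lemma, in a form which is convenient for the induction. -/
def DilConcl {K W ι : Type} [Field K] [AddCommGroup W] [Module K W]
    (A : ι → Submodule K W) (I : Finset ι) (vs : Finset W) : Prop :=
  ∃ (h : W →ₗ[K] K) (y : ι → W), (∀ i ∈ I, y i ∈ A i ∧ h (y i) = 0) ∧
      (∀ g : ι → K, ∑ i ∈ I, g i • y i = 0 → ∀ i ∈ I, g i = 0) ∧ ∀ v ∈ vs, h v ≠ 0

theorem finrank_map_mkQ {K W : Type} [Field K] [AddCommGroup W] [Module K W]
    [FiniteDimensional K W] (B U : Submodule K W) :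
    finrank K (B.map U.mkQ) + finrank K (B ⊓ U : Submodule K W) = finrank K B := by
  have h1 := LinearMap.finrank_range_add_finrank_ker (U.mkQ.domRestrict B)
  have h2 : LinearMap.range (U.mkQ.domRestrict B) = B.map U.mkQ := by
    ext x
    simp [Submodule.mem_map]
  have h3 : finrank K (LinearMap.ker (U.mkQ.domRestrict B)) =
      finrank K (B ⊓ U : Submodule K W) := by
    have : (LinearMap.ker (U.mkQ.domRestrict B)).map B.subtype = B ⊓ U := by
      ext x
      simp only [Submodule.mem_map, LinearMap.mem_ker, LinearMap.domRestrict_apply,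
        Submodule.mkQ_apply, Submodule.Quotient.mk_eq_zero, Submodule.subtype_apply,
        Submodule.mem_inf]
      constructor
      · rintro ⟨y, hy, rfl⟩
        exact ⟨y.2, hy⟩
      · rintro ⟨hx, hy⟩
        exact ⟨⟨x, hx⟩, hy, rfl⟩
    rw [← this, Submodule.finrank_map_subtype_eq]
  rw [h2, h3] at h1
  exact h1

/-- the case of a tight subset -/
theorem dil_tight {K W ι : Type} [Field K] [Infinite K] [AddCommGroup W] [Module K W]
    [FiniteDimensional K W] [DecidableEq ι]
    (A : ι → Submodule K W) (I : Finset ι)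
    (ih : ∀ (W' : Type) [AddCommGroup W'] [Module K W'] [FiniteDimensional K W']
      (A' : ι → Submodule K W') (I' : Finset ι), I'.card < I.card →
      (∀ J ⊆ I', J.Nonempty → J.card + 1 ≤ finrank K (J.sup A' : Submodule K W')) →
      ∀ (vs : Finset W'), (∀ v ∈ vs, v ≠ 0) → DilConcl A' I' vs)
    (hA : ∀ J ⊆ I, J.Nonempty → J.card + 1 ≤ finrank K (J.sup A : Submodule K W))
    (J : Finset ι) (hJI : J ⊂ I) (hJ0 : J.Nonempty)
    (hJt : finrank K (J.sup A : Submodule K W) = J.card + 1)
    (vs : Finset W) (hvs : ∀ v ∈ vs, v ≠ 0) : DilConcl A I vs := by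
  classical
  set C : Submodule K W := J.sup A with hC
  -- a nonzero vector of `C`
  have hCne : Nontrivial C := Module.finrank_pos_iff.mp (by rw [hJt]; omega)
  obtain ⟨a, ha⟩ := exists_ne (0 : C)
  -- the vectors chosen in the intersections
  let g : Finset ι → C := fun J' =>
    if h : ∃ w : C, w ≠ 0 ∧ (w : W) ∈ (J'.sup A : Submodule K W) then h.choose else a
  have hg0 : ∀ J', g J' ≠ 0 := by
    intro J'
    by_cases h : ∃ w : C, w ≠ 0 ∧ (w : W) ∈ (J'.sup A : Submodule K W)
    · simp only [g, dif_pos h]
      exact h.choose_spec.1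
    · simp only [g, dif_neg h]
      exact ha
  have hgm : ∀ J', (∃ w : C, w ≠ 0 ∧ (w : W) ∈ (J'.sup A : Submodule K W)) →
      ((g J' : C) : W) ∈ (J'.sup A : Submodule K W) := by
    intro J' h
    simp only [g, dif_pos h]
    exact h.choose_spec.2
  -- the first application of the induction hypothesis
  let A1 : ι → Submodule K C := fun i => (A i).comap C.subtype
  let vs1 : Finset C := (vs.subtype (fun v => v ∈ C)) ∪ ((I \ J).powerset.image g ∪ {a})
  have h1 : DilConcl A1 J vs1 := by
    apply ih C A1 J (Finset.card_lt_card hJI)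
    · intro J' hJ' hJ'0
      have h2 := hA J' (hJ'.trans hJI.1) hJ'0
      have h3 : (J'.sup A : Submodule K W) ≤ (J'.sup A1 : Submodule K C).map C.subtype := by
        apply Finset.sup_le
        intro i hi x hx
        have hxC : x ∈ C := (Finset.le_sup (f := A) (hJ' hi)) hx
        refine ⟨⟨x, hxC⟩, ?_, rfl⟩
        have : A1 i ≤ J'.sup A1 := Finset.le_sup (f := A1) hi
        apply this
        exact hx
      have h4 := Submodule.finrank_mono h3
      rw [Submodule.finrank_map_subtype_eq] at h4
      omega
    · intro v hv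
      simp only [vs1, Finset.mem_union, Finset.mem_subtype, Finset.mem_image,
        Finset.mem_singleton] at hv
      rcases hv with hv | ⟨J', _, rfl⟩ | rfl
      · intro h0
        exact hvs _ hv (by rw [h0]; rfl)
      · exact hg0 J'
      · exact ha
  obtain ⟨f1, y1, hy1, hli1, hav1⟩ := h1
  have hfa : f1 a ≠ 0 := hav1 a (by simp [vs1])
  -- the subspace `U`
  let U : Submodule K W := (LinearMap.ker f1).map C.subtype
  have hmemU : ∀ w : C, (w : W) ∈ U ↔ f1 w = 0 := by
    intro w
    constructor
    · rintro ⟨z, hz, hzw⟩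
      have : z = w := Subtype.ext hzw
      rw [← this]
      exact hz
    · intro h
      exact ⟨w, h, rfl⟩
  have hUC : U ≤ C := by
    rintro x ⟨z, _, rfl⟩
    exact z.2
  -- the second application
  let A2 : ι → Submodule K (W ⧸ U) := fun i => (A i).map U.mkQ
  let vs2 : Finset (W ⧸ U) := (vs.filter (fun v => v ∉ C)).image U.mkQ ∪ {U.mkQ a}
  have hmka : U.mkQ (a : W) ≠ 0 := by
    rw [Submodule.mkQ_apply, Ne, Submodule.Quotient.mk_eq_zero, hmemU]
    exact hfa
  have h2 : DilConcl A2 (I \ J) vs2 := by
    apply ih (W ⧸ U) A2 (I \ J)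
    · rw [Finset.card_sdiff_of_subset hJI.1]
      have := hJ0.card_pos
      have := Finset.card_le_card hJI.1
      omega
    · intro J' hJ' hJ'0
      have hJ'I : J' ⊆ I := hJ'.trans Finset.sdiff_subset
      have hdis : Disjoint J' J := Finset.disjoint_of_subset_left hJ' Finset.sdiff_disjoint
      have e1 : (J'.sup A2 : Submodule K (W ⧸ U)) = (J'.sup A : Submodule K W).map U.mkQ := by
        apply le_antisymm
        · apply Finset.sup_le
          intro i hi
          exact Submodule.map_mono (Finset.le_sup (f := A) hi)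
        · rw [Submodule.map_le_iff_le_comap]
          apply Finset.sup_le
          intro i hi
          rw [← Submodule.map_le_iff_le_comap]
          exact Finset.le_sup (f := A2) hi
      rw [e1]
      have e2 := finrank_map_mkQ (J'.sup A) U
      have e3 := Submodule.finrank_sup_add_finrank_inf_eq (J'.sup A) C
      have e4 := hA J' hJ'I hJ'0
      have e5 : J'.card + J.card + 1 ≤ finrank K (J'.sup A ⊔ C : Submodule K W) := by
        have := hA (J' ∪ J) (Finset.union_subset hJ'I hJI.1) (hJ'0.mono Finset.subset_union_left)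
        rw [Finset.card_union_of_disjoint hdis, Finset.sup_union] at this
        exact this
      by_cases hw : ∃ w : C, w ≠ 0 ∧ (w : W) ∈ (J'.sup A : Submodule K W)
      · have e6 := hgm J' hw
        have e7 : f1 (g J') ≠ 0 := hav1 _ (by
          simp only [vs1, Finset.mem_union, Finset.mem_image, Finset.mem_powerset]
          exact Or.inr (Or.inl ⟨J', hJ', rfl⟩))
        have e8 : (J'.sup A ⊓ U : Submodule K W) < (J'.sup A ⊓ C : Submodule K W) := by
          apply lt_of_le_of_ne (inf_le_inf_left _ hUC)
          intro heq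
          have : ((g J' : C) : W) ∈ (J'.sup A ⊓ U : Submodule K W) := by
            rw [heq]
            exact ⟨e6, (g J').2⟩
          exact e7 ((hmemU _).mp this.2)
        have e9 := Submodule.finrank_lt_finrank_of_lt e8
        omega
      · have e6 : (J'.sup A ⊓ U : Submodule K W) = ⊥ := by
          rw [eq_bot_iff]
          rintro x ⟨hx1, hx2⟩
          rw [Submodule.mem_bot]
          by_contra hx0
          exact hw ⟨⟨x, hUC hx2⟩, fun h => hx0 (congrArg Subtype.val h), hx1⟩
        rw [e6, finrank_bot] at e2
        omega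
    · intro v hv
      simp only [vs2, Finset.mem_union, Finset.mem_image, Finset.mem_filter,
        Finset.mem_singleton] at hv
      rcases hv with ⟨w, ⟨_, hw⟩, rfl⟩ | rfl
      · rw [Submodule.mkQ_apply, Ne, Submodule.Quotient.mk_eq_zero]
        exact fun h => hw (hUC h)
      · exact hmka
  obtain ⟨f2, y2, hy2, hli2, hav2⟩ := h2
  have hf2a : f2 (U.mkQ (a : W)) ≠ 0 := hav2 _ (by simp [vs2])
  have hlift : ∀ i, ∃ z : W, i ∈ I \ J → z ∈ A i ∧ U.mkQ z = y2 i := by
    intro i
    by_cases hi : i ∈ I \ J
    · obtain ⟨z, hz, hz2⟩ := (hy2 i hi).1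
      exact ⟨z, fun _ => ⟨hz, hz2⟩⟩
    · exact ⟨0, fun h => absurd h hi⟩
  choose z hz using hlift
  refine ⟨f2.comp U.mkQ, fun i => if i ∈ J then (y1 i : W) else z i, ?_, ?_, ?_⟩
  · intro i hi
    by_cases hiJ : i ∈ J
    · simp only [if_pos hiJ]
      refine ⟨(hy1 i hiJ).1, ?_⟩
      have : ((y1 i : C) : W) ∈ U := (hmemU _).mpr (hy1 i hiJ).2
      rw [LinearMap.comp_apply, Submodule.mkQ_apply, (Submodule.Quotient.mk_eq_zero U).mpr this,
        map_zero]
    · simp only [if_neg hiJ]
      have hi' : i ∈ I \ J := Finset.mem_sdiff.mpr ⟨hi, hiJ⟩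
      refine ⟨(hz i hi').1, ?_⟩
      rw [LinearMap.comp_apply, (hz i hi').2]
      exact (hy2 i hi').2
  · intro c hc
    have hsplit : ∑ i ∈ I, c i • (if i ∈ J then (y1 i : W) else z i) =
        ∑ i ∈ I \ J, c i • z i + ∑ i ∈ J, c i • ((y1 i : C) : W) := by
      rw [← Finset.sum_sdiff hJI.1]
      congr 1
      · apply Finset.sum_congr rfl
        intro i hi
        rw [if_neg (Finset.mem_sdiff.mp hi).2]
      · apply Finset.sum_congr rfl
        intro i hi
        rw [if_pos hi]
    rw [hsplit] at hc
    have hz0 : ∀ i ∈ I \ J, c i = 0 := by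
      apply hli2
      have := congrArg U.mkQ hc
      rw [map_add, map_sum, map_sum, map_zero] at this
      have e1 : ∑ i ∈ J, U.mkQ (c i • ((y1 i : C) : W)) = 0 := by
        apply Finset.sum_eq_zero
        intro i hi
        have : ((y1 i : C) : W) ∈ U := (hmemU _).mpr (hy1 i hi).2
        rw [map_smul, Submodule.mkQ_apply, (Submodule.Quotient.mk_eq_zero U).mpr this, smul_zero]
      rw [e1, add_zero] at this
      rw [← this]
      apply Finset.sum_congr rfl
      intro i hi
      rw [map_smul, (hz i hi).2]
    have hz1 : ∀ i ∈ J, c i = 0 := by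
      apply hli1
      apply Subtype.ext
      rw [Finset.sum_eq_zero (fun i hi => by rw [hz0 i hi, zero_smul]), zero_add] at hc
      rw [← Submodule.subtype_apply, map_sum]
      simpa using hc
    intro i hi
    by_cases hiJ : i ∈ J
    · exact hz1 i hiJ
    · exact hz0 i (Finset.mem_sdiff.mpr ⟨hi, hiJ⟩)
  · intro v hv
    rw [LinearMap.comp_apply]
    by_cases hvC : v ∈ C
    · have hf1v : f1 ⟨v, hvC⟩ ≠ 0 := hav1 _ (by
        simp only [vs1, Finset.mem_union, Finset.mem_subtype]
        exact Or.inl hv)
      have hmem : v - (f1 ⟨v, hvC⟩ / f1 a) • (a : W) ∈ U := by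
        have : (((⟨v, hvC⟩ : C) - (f1 ⟨v, hvC⟩ / f1 a) • a : C) : W) ∈ U := by
          rw [hmemU, map_sub, map_smul, smul_eq_mul, div_mul_cancel₀ _ hfa, sub_self]
        simpa using this
      have hmk : U.mkQ v = (f1 ⟨v, hvC⟩ / f1 a) • U.mkQ (a : W) := by
        rw [← map_smul, ← sub_eq_zero, ← map_sub, Submodule.mkQ_apply]
        exact (Submodule.Quotient.mk_eq_zero U).mpr hmem
      rw [hmk, map_smul, smul_eq_mul]
      exact mul_ne_zero (div_ne_zero hf1v hfa) hf2a
    · apply hav2
      simp only [vs2, Finset.mem_union, Finset.mem_image, Finset.mem_filter]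
      exact Or.inl ⟨v, ⟨hv, hvC⟩, rfl⟩

/-- The main induction. -/
theorem dil_main {K ι : Type} [Field K] [Infinite K] [DecidableEq ι] : ∀ (n m : ℕ) (W : Type)
    [AddCommGroup W] [Module K W] [FiniteDimensional K W] (A : ι → Submodule K W) (I : Finset ι),
    I.card = n → ∑ i ∈ I, finrank K (A i) = m →
    (∀ J ⊆ I, J.Nonempty → J.card + 1 ≤ finrank K (J.sup A : Submodule K W)) →
    ∀ (vs : Finset W), (∀ v ∈ vs, v ≠ 0) → DilConcl A I vs := by
  intro n
  induction n using Nat.strong_induction_on with
  | _ n ihn =>
  intro m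
  induction m using Nat.strong_induction_on with
  | _ m ihm =>
  intro W _ _ _ A I hIn hIm hA vs hvs
  rcases Finset.eq_empty_or_nonempty I with rfl | hI0
  · obtain ⟨h, hh⟩ := exists_dual_avoid (K := K) vs hvs
    exact ⟨h, fun _ => 0, by simp, by simp, hh⟩
  by_cases ht : ∃ J, J ⊂ I ∧ J.Nonempty ∧ finrank K (J.sup A : Submodule K W) = J.card + 1
  · obtain ⟨J, hJI, hJ0, hJt⟩ := ht
    refine dil_tight A I ?_ hA J hJI hJ0 hJt vs hvs
    intro W' _ _ _ A' I' hlt hA' vs' hvs'
    exact ihn I'.card (by omega) _ W' A' I' rfl rfl hA' vs' hvs'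
  push Not at ht
  obtain ⟨i0, hi0⟩ := hI0
  by_cases hd : finrank K (A i0) ≤ 2 ∧ I.card = 1
  · -- a single subspace
    obtain ⟨_, hc1⟩ := hd
    obtain ⟨h, hh⟩ := exists_dual_avoid (K := K) vs hvs
    obtain ⟨i, rfl⟩ := Finset.card_eq_one.mp hc1
    have h1 := hA {i} (le_refl _) (Finset.singleton_nonempty _)
    rw [Finset.sup_singleton, Finset.card_singleton] at h1
    have h2 := LinearMap.finrank_range_add_finrank_ker (h.domRestrict (A i))
    have h3 : finrank K (LinearMap.range (h.domRestrict (A i))) ≤ 1 := by
      have := Submodule.finrank_le (LinearMap.range (h.domRestrict (A i)))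
      rwa [finrank_self] at this
    have h4 : Nontrivial (LinearMap.ker (h.domRestrict (A i))) :=
      (Module.finrank_pos_iff (R := K)).mp (by omega)
    obtain ⟨w, hw⟩ := exists_ne (0 : LinearMap.ker (h.domRestrict (A i)))
    refine ⟨h, fun _ => ((w : A i) : W), ?_, ?_, hh⟩
    · intro j hj
      rw [Finset.mem_singleton] at hj
      subst hj
      exact ⟨(w : A j).2, w.2⟩
    · intro c hc j hj
      rw [Finset.mem_singleton] at hj
      subst hj
      rw [Finset.sum_singleton] at hc
      rcases smul_eq_zero.mp hc with h0 | h0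
      · exact h0
      · exact absurd (Subtype.ext (Subtype.ext h0)) hw
  · -- replace `A i0` by a hyperplane
    have hJ2 : ∀ J ⊆ I, J.Nonempty → J ≠ I →
        J.card + 2 ≤ finrank K (J.sup A : Submodule K W) := by
      intro J hJ hJ0 hJne
      have h1 := ht J (Finset.ssubset_iff_subset_ne.mpr ⟨hJ, hJne⟩) hJ0
      have h2 := hA J hJ hJ0
      omega
    have hd3 : 3 ≤ finrank K (A i0) := by
      by_cases hc1 : I.card = 1
      · have : ¬ finrank K (A i0) ≤ 2 := fun h => hd ⟨h, hc1⟩
        omega
      · have h1 : ({i0} : Finset ι) ≠ I := by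
          rintro rfl
          exact hc1 (Finset.card_singleton _)
        have h2 := hJ2 {i0} (Finset.singleton_subset_iff.mpr hi0) (Finset.singleton_nonempty _) h1
        rw [Finset.sup_singleton, Finset.card_singleton] at h2
        exact h2
    have hne : Nontrivial (A i0) := (Module.finrank_pos_iff (R := K)).mp (by omega)
    obtain ⟨a, ha⟩ := exists_ne (0 : A i0)
    obtain ⟨φ, hφ⟩ := exists_dual_avoid (K := K) ({(a : W)} : Finset W) (by
      intro v hv
      rw [Finset.mem_singleton] at hv
      rw [hv]
      exact fun h => ha (Subtype.ext h))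
    have hφa : φ (a : W) ≠ 0 := hφ _ (Finset.mem_singleton_self _)
    let B : Submodule K W := A i0 ⊓ LinearMap.ker φ
    have hBle : B ≤ A i0 := inf_le_left
    have hBlt : B < A i0 := by
      apply lt_of_le_of_ne hBle
      intro heq
      have : (a : W) ∈ B := by rw [heq]; exact a.2
      exact hφa this.2
    have hAB : A i0 ≤ B ⊔ Submodule.span K {(a : W)} := by
      intro x hx
      rw [Submodule.mem_sup]
      refine ⟨x - (φ x / φ a) • (a : W), ⟨?_, ?_⟩, (φ x / φ a) • (a : W), ?_, ?_⟩
      · exact (A i0).sub_mem hx ((A i0).smul_mem _ a.2)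
      · change φ _ = 0
        rw [map_sub, map_smul, smul_eq_mul, div_mul_cancel₀ _ hφa, sub_self]
      · exact Submodule.smul_mem _ _ (Submodule.mem_span_singleton_self _)
      · abel
    let A' : ι → Submodule K W := Function.update A i0 B
    have hA'le : ∀ i, A' i ≤ A i := by
      intro i
      by_cases hi : i = i0
      · subst hi
        simp only [A', Function.update_self]
        exact hBle
      · simp only [A', Function.update_of_ne hi]
        exact le_refl _
    have hsum : ∑ i ∈ I, finrank K (A' i) < m := by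
      rw [← hIm]
      apply Finset.sum_lt_sum
      · intro i _
        exact Submodule.finrank_mono (hA'le i)
      · refine ⟨i0, hi0, ?_⟩
        have h0 : A' i0 < A i0 := by
          simpa only [A', Function.update_self] using hBlt
        exact Submodule.finrank_lt_finrank_of_lt h0
    have hA' : ∀ J ⊆ I, J.Nonempty → J.card + 1 ≤ finrank K (J.sup A' : Submodule K W) := by
      intro J hJ hJ0
      have hle : (J.sup A : Submodule K W) ≤ J.sup A' ⊔ Submodule.span K {(a : W)} := by
        apply Finset.sup_le
        intro i hi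
        by_cases hii : i = i0
        · subst hii
          refine hAB.trans (sup_le_sup_right ?_ _)
          have h1 : A' i ≤ J.sup A' := Finset.le_sup (f := A') hi
          simpa only [A', Function.update_self] using h1
        · refine le_trans ?_ le_sup_left
          have h1 : A' i ≤ J.sup A' := Finset.le_sup (f := A') hi
          simpa only [A', Function.update_of_ne hii] using h1
      have h1 := Submodule.finrank_mono hle
      have h2 := Submodule.finrank_add_le_finrank_add_finrank (J.sup A') (Submodule.span K {(a : W)})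
      have h3 : finrank K (Submodule.span K {(a : W)}) ≤ 1 := by
        have := finrank_span_le_card (R := K) ({(a : W)} : Set W)
        simpa using this
      by_cases hJI : J = I
      · -- use `I \ {i0}` or the large dimension
        subst hJI
        by_cases hc1 : J.card = 1
        · have h4 : J = {i0} := by
            obtain ⟨j, hj⟩ := Finset.card_eq_one.mp hc1
            rw [hj] at hi0 ⊢
            rw [Finset.mem_singleton] at hi0
            rw [hi0]
          have h5 : finrank K (J.sup A : Submodule K W) = finrank K (A i0) := by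
            rw [h4, Finset.sup_singleton]
          omega
        · have h4 : (J.erase i0).Nonempty := by
            rw [← Finset.card_pos, Finset.card_erase_of_mem hi0]
            have := hJ0.card_pos
            omega
          have h5 := hJ2 (J.erase i0) (Finset.erase_subset _ _) h4 (by
            intro h
            have := Finset.notMem_erase i0 J
            rw [h] at this
            exact this hi0)
          have h6 : ((J.erase i0).sup A : Submodule K W) ≤ J.sup A' := by
            apply Finset.sup_le
            intro i hi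
            have hii : i ≠ i0 := Finset.ne_of_mem_erase hi
            have h1 : A' i ≤ J.sup A' := Finset.le_sup (f := A') (Finset.mem_of_mem_erase hi)
            simpa only [A', Function.update_of_ne hii] using h1
          have h7 := Submodule.finrank_mono h6
          rw [Finset.card_erase_of_mem hi0] at h5
          omega
      · have := hJ2 J hJ hJ0 hJI
        omega
    obtain ⟨h, y, hy, hli, hav⟩ := ihm _ hsum W A' I hIn rfl hA' vs hvs
    exact ⟨h, y, fun i hi => ⟨hA'le i (hy i hi).1, (hy i hi).2⟩, hli, hav⟩

theorem dilworth {K W ι : Type} [Field K] [Infinite K] [AddCommGroup W] [Module K W]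
    [FiniteDimensional K W] [DecidableEq ι] (A : ι → Submodule K W) (I : Finset ι)
    (hA : ∀ J ⊆ I, J.Nonempty → J.card + 1 ≤ finrank K (J.sup A : Submodule K W))
    (vs : Finset W) (hvs : ∀ v ∈ vs, v ≠ 0) :
    ∃ (h : W →ₗ[K] K) (y : ι → W), (∀ i ∈ I, y i ∈ A i ∧ h (y i) = 0) ∧
      LinearIndependent K (fun i : I => y i) ∧ ∀ v ∈ vs, h v ≠ 0 := by
  obtain ⟨h, y, hy, hli, hav⟩ := dil_main _ _ W A I rfl rfl hA vs hvs
  refine ⟨h, y, hy, ?_, hav⟩
  have h1 : LinearIndepOn K y (I : Set ι) := linearIndepOn_finset_iff.mpr hli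
  exact h1

end Pool.Agent.Helper36.Pin
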