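import Pool.Agent.Helper36.Pin.Defs3
import Pool.Agent.Helper36.Pin.J
import Pool.Agent.Helper14.Pin.QA
import Pool.Agent.Helper60.Pin.QC

/-!
# The rank condition for the filled graph and ends (module PQ-D)
-/

namespace Pool.Agent.Helper36.Pin

open Finset Module

variable {V : Type} [Fintype V] [DecidableEq V]

namespace ModQD

theorem mem_core {G : SimpleGraph V} {e : Sym2 V} :
    e ∈ core G ↔ e ∈ edges G ∧ e ∉ coloops G := by
  classical
  simp [core]

theorem mem_star {Y S : Finset V} {u v : V} :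
    s(u, v) ∈ star Y S ↔ (u ∈ Y ∧ v ∈ Y) ∧ u ≠ v ∧ (u ∈ S ∨ v ∈ S) := by
  classical
  simp only [star, mem_filter, mk_mem_sym2, Sym2.mk_isDiag_iff, Sym2.mem_iff]
  constructor
  · rintro ⟨h1, h2, x, hx, rfl | rfl⟩
    · exact ⟨h1, h2, Or.inl hx⟩
    · exact ⟨h1, h2, Or.inr hx⟩
  · rintro ⟨h1, h2, hx | hx⟩
    · exact ⟨h1, h2, u, hx, Or.inl rfl⟩
    · exact ⟨h1, h2, v, hx, Or.inr rfl⟩

theorem rho_mono {m s s' : ℕ} (hm : 2 ≤ m) (h : s ≤ s') : rho m s ≤ rho m s' := by
  unfold rho
  split_ifs <;> omega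

/-- The auxiliary graph on `X₀ = S ∪ {a, b}`. -/
def aux (G : SimpleGraph V) (S : Finset V) (a b : V) : SimpleGraph V :=
  (fill G ⊓ completeOn (S ∪ {a, b})) ⊔ SimpleGraph.edge a b

theorem aux_adj {G : SimpleGraph V} {S : Finset V} {a b u v : V} :
    (aux G S a b).Adj u v ↔
      ((fill G).Adj u v ∧ u ∈ S ∪ {a, b} ∧ v ∈ S ∪ {a, b}) ∨
        (a ≠ b ∧ ((u = a ∧ v = b) ∨ (u = b ∧ v = a))) := by
  simp only [aux, SimpleGraph.sup_adj, SimpleGraph.inf_adj, SimpleGraph.edge_adj]
  constructor
  · rintro (⟨h1, _, h2, h3⟩ | h)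
    · exact Or.inl ⟨h1, h2, h3⟩
    · right
      obtain ⟨h, hne⟩ := h
      rcases h with ⟨rfl, rfl⟩ | ⟨rfl, rfl⟩
      · exact ⟨hne, Or.inl ⟨rfl, rfl⟩⟩
      · exact ⟨hne.symm, Or.inr ⟨rfl, rfl⟩⟩
  · rintro (⟨h1, h2, h3⟩ | ⟨hne, h⟩)
    · exact Or.inl ⟨h1, h1.ne, h2, h3⟩
    · right
      rcases h with ⟨rfl, rfl⟩ | ⟨rfl, rfl⟩
      · exact ⟨Or.inl ⟨rfl, rfl⟩, hne⟩
      · exact ⟨Or.inr ⟨rfl, rfl⟩, hne.symm⟩

/-- The results of the module QB which are used here. -/
structure Hyp (V : Type) [Fintype V] [DecidableEq V] : Prop where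
  comps : ∀ G : SimpleGraph V, Comps (core G) (blocks G)
  card4 : ∀ (G : SimpleGraph V) (X : Finset V), X ∈ blocks G → 4 ≤ X.card
  red : ∀ (G : SimpleGraph V) (X : Finset V), X ∈ blocks G → ∀ e : Sym2 V,
    rk ((core G ∩ X.sym2).erase e) + 3 = 2 * X.card
  parts : ∀ (G : SimpleGraph V) (B : Finset (Sym2 V)), B ⊆ coloops G →
    ∀ (Y : Finset V → Finset V), (∀ X ∈ blocks G, Y X ⊆ X) → ∀ (S : Finset V),
    rk (B ∪ (blocks G).biUnion (fun X => star (Y X) S)) =
      B.card + ∑ X ∈ blocks G, rho (Y X).card (S ∩ Y X).card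
  incFill : ∀ (G : SimpleGraph V) (S : Finset V),
    rk (inc (fill G) S) =
      (coloops G ∩ inc G S).card + ∑ X ∈ blocks G, rho X.card (S ∩ X).card

/-- The assumptions of the module and their first consequences. -/
structure Setup (G : SimpleGraph V) (S : Finset V) (a b : V) : Prop where
  q : Hyp V
  hab : a ≠ b
  hS : S.Nonempty
  hN : nbr G S = {a, b}
  hA : FeasA (fill G) S
  hsmall : ∀ S' ⊂ S, S'.Nonempty → 3 ≤ (nbr G S').card

namespace Setup

variable {G : SimpleGraph V} {S : Finset V} {a b : V}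

theorem haS (h : Setup G S a b) : a ∉ S :=
  (mem_nbr.1 (show a ∈ nbr G S by rw [h.hN]; simp)).1

theorem hbS (h : Setup G S a b) : b ∉ S :=
  (mem_nbr.1 (show b ∈ nbr G S by rw [h.hN]; simp)).1

theorem cardX0 (h : Setup G S a b) : (S ∪ {a, b}).card = S.card + 2 := by
  rw [card_union_of_disjoint, card_pair h.hab]
  rw [disjoint_left]
  intro x hx hx'
  simp only [mem_insert, mem_singleton] at hx'
  rcases hx' with rfl | rfl
  · exact h.haS hx
  · exact h.hbS hx

theorem mem_of_adj (h : Setup G S a b) {u v : V} (hu : u ∈ S) (huv : G.Adj u v) :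
    v ∈ S ∪ {a, b} := by
  by_cases hv : v ∈ S
  · exact mem_union_left _ hv
  · rw [← h.hN]
    exact mem_union_right _ (mem_nbr.2 ⟨hv, u, hu, huv⟩)

theorem not_mem_S (_ : Setup G S a b) {v : V} (hv : v ∈ S ∪ {a, b}) (hvS : v ∉ S) :
    v = a ∨ v = b := by
  simp only [mem_union, mem_insert, mem_singleton] at hv
  tauto

/-- (1) the edges of the auxiliary graph at a subset of `S` -/
theorem inc_aux (h : Setup G S a b) {S' : Finset V} (hS' : S' ⊆ S) :
    inc (aux G S a b) S' = (coloops G ∩ inc G S') ∪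
      (blocks G).biUnion (fun X => star (X ∩ (S ∪ {a, b})) S') := by
  classical
  ext e
  induction e using Sym2.ind with
  | _ u v =>
    have hR : s(u, v) ∈ (coloops G ∩ inc G S') ∪
        (blocks G).biUnion (fun X => star (X ∩ (S ∪ {a, b})) S') ↔
        (s(u, v) ∈ coloops G ∧ G.Adj u v ∧ (u ∈ S' ∨ v ∈ S')) ∨
          ∃ X ∈ blocks G, s(u, v) ∈ star (X ∩ (S ∪ {a, b})) S' := by
      rw [mem_union, mem_inter, mem_inc_mk, mem_biUnion]
    rw [hR, mem_inc_mk, aux_adj]
    constructor
    · rintro ⟨hadj, huv⟩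
      have hne : ¬ (a ≠ b ∧ ((u = a ∧ v = b) ∨ (u = b ∧ v = a))) := by
        rintro ⟨-, ⟨rfl, rfl⟩ | ⟨rfl, rfl⟩⟩
        · rcases huv with hu | hv
          · exact h.haS (hS' hu)
          · exact h.hbS (hS' hv)
        · rcases huv with hu | hv
          · exact h.hbS (hS' hu)
          · exact h.haS (hS' hv)
      rcases hadj with ⟨hf, hu, hv⟩ | hadj
      · by_cases hco : s(u, v) ∈ coloops G ∧ G.Adj u v
        · left
          exact ⟨hco.1, hco.2, huv⟩
        · right
          have hblock : ∃ X ∈ blocks G, u ∈ X ∧ v ∈ X := by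
            rcases hf with hG | ⟨_, X, hX, huX, hvX⟩
            · have hcore : s(u, v) ∈ core G := by
                rw [mem_core, mem_edges_mk]
                exact ⟨hG, fun hc => hco ⟨hc, hG⟩⟩
              obtain ⟨X, hX, hXe⟩ := (h.q.comps G).cover _ hcore (by
                rw [Sym2.mk_isDiag_iff]
                exact hG.ne)
              rw [mk_mem_sym2] at hXe
              exact ⟨X, hX, hXe.1, hXe.2⟩
            · exact ⟨X, hX, huX, hvX⟩
          obtain ⟨X, hX, huX, hvX⟩ := hblock
          refine ⟨X, hX, ?_⟩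
          rw [mem_star, mem_inter, mem_inter]
          exact ⟨⟨⟨huX, hu⟩, ⟨hvX, hv⟩⟩, hf.ne, huv⟩
      · exact absurd hadj hne
    · rintro (⟨_, hG, huv⟩ | ⟨X, hX, hst⟩)
      · refine ⟨Or.inl ⟨Or.inl hG, ?_, ?_⟩, huv⟩
        · rcases huv with hu | hv
          · exact mem_union_left _ (hS' hu)
          · exact h.mem_of_adj (hS' hv) hG.symm
        · rcases huv with hu | hv
          · exact h.mem_of_adj (hS' hu) hG
          · exact mem_union_left _ (hS' hv)
      · rw [mem_star, mem_inter, mem_inter] at hst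
        obtain ⟨⟨⟨huX, hu⟩, ⟨hvX, hv⟩⟩, hne, huv⟩ := hst
        exact ⟨Or.inl ⟨Or.inr ⟨hne, X, hX, huX, hvX⟩, hu, hv⟩, huv⟩

theorem rk_inc_aux (h : Setup G S a b) {S' : Finset V} (hS' : S' ⊆ S) :
    rk (inc (aux G S a b) S') = (coloops G ∩ inc G S').card +
      ∑ X ∈ blocks G, rho (X ∩ (S ∪ {a, b})).card (S' ∩ X).card := by
  rw [h.inc_aux hS', h.q.parts G (coloops G ∩ inc G S') inter_subset_left
    (fun X => X ∩ (S ∪ {a, b})) (fun X _ => inter_subset_left) S']
  congr 1
  apply sum_congr rfl
  intro X _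
  congr 2
  ext x
  simp only [mem_inter]
  constructor
  · rintro ⟨h1, h2, _⟩
    exact ⟨h1, h2⟩
  · rintro ⟨h1, h2⟩
    exact ⟨h1, h2, mem_union_left _ (hS' h1)⟩

/-- the facts about a crossing block -/
theorem cross (h : Setup G S a b) {X : Finset V} (hX : X ∈ blocks G)
    (hXS : (X ∩ S).Nonempty) (hc : ¬ X ⊆ S ∪ {a, b}) :
    a ∈ X ∧ b ∈ X ∧ 2 ≤ (X ∩ S).card ∧ (X ∩ (S ∪ {a, b})).card = (X ∩ S).card + 2 ∧
      ∀ e, 2 * (X ∩ S).card + 1 ≤
        rk (insert s(a, b) ((core G ∩ X.sym2 ∩ inc G S).erase e)) := by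
  have h2 : (nbr G S).card ≤ 2 := by rw [h.hN, card_pair h.hab]
  obtain ⟨h3, _, h4, h5⟩ := crossing_of (h.q.card4 G X hX) (h.q.red G X hX) h2 hXS
    (by rw [h.hN]; exact hc)
  have ha : a ∈ X := h3 (by rw [h.hN]; simp)
  have hb : b ∈ X := h3 (by rw [h.hN]; simp)
  refine ⟨ha, hb, h4, ?_, h5 a b h.hN⟩
  have : X ∩ (S ∪ {a, b}) = (X ∩ S) ∪ {a, b} := by
    ext x
    simp only [mem_inter, mem_union, mem_insert, mem_singleton]
    constructor
    · rintro ⟨h1, h2⟩
      tauto
    · rintro (⟨h1, h2⟩ | rfl | rfl)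
      · exact ⟨h1, Or.inl h2⟩
      · exact ⟨ha, by tauto⟩
      · exact ⟨hb, by tauto⟩
  rw [this, card_union_of_disjoint, card_pair h.hab]
  rw [disjoint_left]
  intro x hx hx'
  simp only [mem_insert, mem_singleton] at hx'
  rw [mem_inter] at hx
  rcases hx' with rfl | rfl
  · exact h.haS hx.2
  · exact h.hbS hx.2

/-- there is at most one crossing block -/
theorem cross_unique (h : Setup G S a b) {X Y : Finset V} (hX : X ∈ blocks G)
    (hY : Y ∈ blocks G) (hXS : (X ∩ S).Nonempty) (hYS : (Y ∩ S).Nonempty)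
    (hcX : ¬ X ⊆ S ∪ {a, b}) (hcY : ¬ Y ⊆ S ∪ {a, b}) : X = Y := by
  by_contra hne
  have h1 := (h.q.comps G).inter X hX Y hY hne
  obtain ⟨haX, hbX, _⟩ := h.cross hX hXS hcX
  obtain ⟨haY, hbY, _⟩ := h.cross hY hYS hcY
  have h2 : ({a, b} : Finset V) ⊆ X ∩ Y := by
    intro x hx
    simp only [mem_insert, mem_singleton] at hx
    rw [mem_inter]
    rcases hx with rfl | rfl
    · exact ⟨haX, haY⟩
    · exact ⟨hbX, hbY⟩
  have h3 := card_le_card h2
  rw [card_pair h.hab] at h3
  omega

/-- (2) the rank condition for the auxiliary graph -/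
theorem rank_aux (h : Setup G S a b) {S' : Finset V} (hS' : S' ⊆ S) (h0 : S'.Nonempty) :
    2 * S'.card + 1 ≤ rk (inc (aux G S a b) S') := by
  classical
  rw [h.rk_inc_aux hS']
  by_cases hcr : ∃ X ∈ blocks G, (X ∩ S').Nonempty ∧ ¬ X ⊆ S ∪ {a, b}
  · obtain ⟨X, hX, hXS', hcX⟩ := hcr
    have hXS : (X ∩ S).Nonempty := hXS'.mono (inter_subset_inter_left hS')
    obtain ⟨_, _, h2, h3, _⟩ := h.cross hX hXS hcX
    have hs1 : 1 ≤ (S' ∩ X).card := by
      rw [inter_comm]
      exact card_pos.2 hXS'
    have hsle : (S' ∩ X).card ≤ (X ∩ S).card := by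
      rw [inter_comm S' X]
      exact card_le_card (inter_subset_inter_left hS')
    have hrho : 2 * (S' ∩ X).card + 1 ≤
        rho (X ∩ (S ∪ {a, b})).card (S' ∩ X).card := by
      rw [h3]
      unfold rho
      split_ifs <;> omega
    have hsplit := sum_erase_add (blocks G)
      (fun Y => rho (Y ∩ (S ∪ {a, b})).card (S' ∩ Y).card) hX
    have hcardS' : (S' \ X).card + (S' ∩ X).card = S'.card := card_sdiff_add_card_inter S' X
    by_cases hS'' : (S' \ X).Nonempty
    · have hF := h.hA (S' \ X) (sdiff_subset.trans hS') hS''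
      rw [h.q.incFill, ← sum_erase_add (blocks G) _ hX] at hF
      have hX0 : ((S' \ X) ∩ X).card = 0 := by
        rw [card_eq_zero]
        ext x
        simp only [mem_inter, mem_sdiff, notMem_empty, iff_false]
        tauto
      rw [hX0] at hF
      have hr0 : rho X.card 0 = 0 := by simp [rho]
      rw [hr0] at hF
      have hle1 : (coloops G ∩ inc G (S' \ X)).card ≤ (coloops G ∩ inc G S').card :=
        card_le_card (inter_subset_inter_left (inc_mono sdiff_subset))
      have hle2 : ∑ Y ∈ (blocks G).erase X, rho Y.card ((S' \ X) ∩ Y).card ≤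
          ∑ Y ∈ (blocks G).erase X, rho (Y ∩ (S ∪ {a, b})).card (S' ∩ Y).card := by
        apply sum_le_sum
        intro Y hY
        rw [mem_erase] at hY
        by_cases hYS : (Y ∩ (S' \ X)).Nonempty
        · have hYsub : Y ⊆ S ∪ {a, b} := by
            by_contra hcY
            have hYS2 : (Y ∩ S).Nonempty :=
              hYS.mono (inter_subset_inter_left (sdiff_subset.trans hS'))
            exact hY.1 (h.cross_unique hY.2 hX hYS2 hXS hcY hcX)
          rw [inter_eq_left.2 hYsub]
          apply rho_mono ((h.q.comps G).two_le Y hY.2)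
          exact card_le_card (inter_subset_inter_right sdiff_subset)
        · have : ((S' \ X) ∩ Y).card = 0 := by
            rw [card_eq_zero, inter_comm]
            exact not_nonempty_iff_eq_empty.1 hYS
          rw [this]
          simp [rho]
      omega
    · have : (S' \ X).card = 0 := by
        rw [card_eq_zero]
        exact not_nonempty_iff_eq_empty.1 hS''
      omega
  · push Not at hcr
    have hF := h.hA S' hS' h0
    rw [h.q.incFill] at hF
    have : ∑ X ∈ blocks G, rho X.card (S' ∩ X).card =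
        ∑ X ∈ blocks G, rho (X ∩ (S ∪ {a, b})).card (S' ∩ X).card := by
      apply sum_congr rfl
      intro X hX
      by_cases hXS : (X ∩ S').Nonempty
      · rw [inter_eq_left.2 (hcr X hX hXS)]
      · have : (S' ∩ X).card = 0 := by
          rw [card_eq_zero, inter_comm]
          exact not_nonempty_iff_eq_empty.1 hXS
        rw [this]
        simp [rho]
    omega

/-- `S` has at least two elements -/
theorem two_le (h : Setup G S a b) : 2 ≤ S.card := by
  classical
  by_contra hlt
  have h1 : S.card = 1 := by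
    have := h.hS.card_pos
    omega
  obtain ⟨v, hv⟩ := card_eq_one.1 h1
  have hno : ∀ X ∈ blocks G, v ∉ X := by
    intro X hX hvX
    have hXS : (X ∩ S).Nonempty := ⟨v, by rw [hv]; simp [hvX]⟩
    by_cases hc : X ⊆ S ∪ {a, b}
    · have h2 := card_le_card hc
      rw [h.cardX0] at h2
      have h3 := h.q.card4 G X hX
      omega
    · obtain ⟨_, _, h2, _⟩ := h.cross hX hXS hc
      have := card_le_card (inter_subset_right (s₁ := X) (s₂ := S))
      omega
  have hF := h.hA {v} (by rw [hv]) (singleton_nonempty _)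
  rw [h.q.incFill] at hF
  have h0 : ∑ X ∈ blocks G, rho X.card (({v} : Finset V) ∩ X).card = 0 := by
    apply sum_eq_zero
    intro X hX
    have : (({v} : Finset V) ∩ X) = ∅ := by
      ext x
      simp only [mem_inter, mem_singleton, notMem_empty, iff_false]
      rintro ⟨rfl, hx⟩
      exact hno X hX hx
    rw [this, card_empty]
    simp [rho]
  have h2 := card_le_card (inter_subset_right (s₁ := coloops G) (s₂ := inc G {v}))
  have h3 := card_inc_singleton_le G v
  have h4 : (nbr G {v}).card = 2 := by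
    rw [← hv, h.hN, card_pair h.hab]
  rw [card_singleton] at hF
  omega

theorem sdiff_eq (h : Setup G S a b) : (S ∪ {a, b}) \ {a, b} = S := by
  ext x
  simp only [mem_sdiff, mem_union, mem_insert, mem_singleton]
  constructor
  · tauto
  · intro hx
    refine ⟨Or.inl hx, ?_⟩
    rintro (rfl | rfl)
    · exact h.haS hx
    · exact h.hbS hx

theorem nbr_aux_sup (h : Setup G S a b) {S' : Finset V} (hS' : S' ⊆ S) :
    nbr G S' ⊆ nbr (aux G S a b) S' := by
  intro v hv
  obtain ⟨h1, u, hu, huv⟩ := mem_nbr.1 hv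
  refine mem_nbr.2 ⟨h1, u, hu, ?_⟩
  rw [aux_adj]
  exact Or.inl ⟨Or.inl huv, mem_union_left _ (hS' hu), h.mem_of_adj (hS' hu) huv⟩

/-- (3) the auxiliary graph is redundantly rigid -/
theorem gr_aux (h : Setup G S a b) : GR (aux G S a b) (S ∪ {a, b}) := by
  have hinside : ∀ u v, (aux G S a b).Adj u v → u ∈ S ∪ {a, b} ∧ v ∈ S ∪ {a, b} := by
    intro u v huv
    rw [aux_adj] at huv
    rcases huv with ⟨_, h1, h2⟩ | ⟨_, ⟨rfl, rfl⟩ | ⟨rfl, rfl⟩⟩
    · exact ⟨h1, h2⟩
    · constructor <;> simp
    · constructor <;> simp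
  rw [gr_iff (aux G S a b) (S ∪ {a, b}) {a, b} (by
      rw [h.cardX0]
      have := h.two_le
      omega) subset_union_right (Or.inl (card_pair h.hab)) (by
      intro u hu v hv huv
      rw [aux_adj]
      simp only [mem_insert, mem_singleton] at hu hv
      right
      refine ⟨h.hab, ?_⟩
      rcases hu with rfl | rfl <;> rcases hv with rfl | rfl <;> tauto) (by
      intro u _ v huv
      exact (hinside u v huv).2)]
  rw [h.sdiff_eq]
  intro S' hS' h0
  refine ⟨h.rank_aux hS' h0, ?_⟩
  by_cases hSS : S' = S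
  · left
    subst hSS
    apply Subset.antisymm
    · apply union_subset subset_union_left
      intro v hv
      obtain ⟨_, u, _, huv⟩ := mem_nbr.1 hv
      exact (hinside u v huv).2
    · apply union_subset subset_union_left
      rw [← h.hN]
      exact (h.nbr_aux_sup hS').trans subset_union_right
  · right
    have h1 := h.hsmall S' (Finset.ssubset_iff_subset_ne.2 ⟨hS', hSS⟩) h0
    exact h1.trans (card_le_card (h.nbr_aux_sup hS'))

/-- (4) the edges at `S` without `e`, together with `ab`, have full rank on `X₀` -/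
theorem rank_erase (h : Setup G S a b) (e : Sym2 V) :
    2 * (S ∪ {a, b}).card ≤ rk (insert s(a, b) ((inc G S).erase e)) + 3 := by
  classical
  set A := insert s(a, b) ((inc G S).erase e) with hAdef
  have hred := h.gr_aux.2
  have hE : edges (aux G S a b) ∩ (S ∪ {a, b}).sym2 = edges (aux G S a b) := by
    apply inter_eq_left.2
    intro f hf
    induction f using Sym2.ind with
    | _ u v =>
      rw [mem_edges_mk, aux_adj] at hf
      rw [mk_mem_sym2]
      rcases hf with ⟨_, h1, h2⟩ | ⟨_, ⟨rfl, rfl⟩ | ⟨rfl, rfl⟩⟩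
      · exact ⟨h1, h2⟩
      · constructor <;> simp
      · constructor <;> simp
  have hbig : 2 * (S ∪ {a, b}).card ≤ rk ((edges (aux G S a b)).erase e) + 3 := by
    by_cases he : e ∈ edges (aux G S a b)
    · have := hred.2 e (by rw [hE]; exact he)
      rw [hE] at this
      omega
    · rw [erase_eq_of_notMem he]
      have := hred.1
      rw [hE] at this
      omega
  have hcl : ∀ f ∈ (edges (aux G S a b)).erase e, rk (insert f A) = rk A := by
    intro f hf
    rw [mem_erase] at hf
    obtain ⟨hfe, hf⟩ := hf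
    by_cases hfA : f ∈ A
    · rw [insert_eq_self.2 hfA]
    induction f using Sym2.ind with
    | _ u v =>
      rw [mem_edges_mk, aux_adj] at hf
      have hfab : s(u, v) ≠ s(a, b) := by
        intro heq
        apply hfA
        rw [hAdef, heq]
        exact mem_insert_self _ _
      have hnot : ¬ (a ≠ b ∧ ((u = a ∧ v = b) ∨ (u = b ∧ v = a))) := by
        rintro ⟨-, ⟨rfl, rfl⟩ | ⟨rfl, rfl⟩⟩
        · exact hfab rfl
        · exact hfab Sym2.eq_swap
      rcases hf with ⟨hf, hu, hv⟩ | hf
      swap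
      · exact absurd hf hnot
      have hne : u ≠ v := hf.ne
      -- one end is in `S`
      have hend : u ∈ S ∨ v ∈ S := by
        by_contra hcon
        rw [not_or] at hcon
        have h1 := h.not_mem_S hu hcon.1
        have h2 := h.not_mem_S hv hcon.2
        apply hnot
        refine ⟨h.hab, ?_⟩
        rcases h1 with rfl | rfl <;> rcases h2 with rfl | rfl <;> tauto
      have hnG : ¬ G.Adj u v := by
        intro hG
        apply hfA
        rw [hAdef]
        apply mem_insert_of_mem
        rw [mem_erase, mem_inc_mk]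
        exact ⟨hfe, hG, hend⟩
      rcases hf with hG | ⟨_, X, hX, huX, hvX⟩
      · exact absurd hG hnG
      have hXS : (X ∩ S).Nonempty := by
        rcases hend with hu' | hv'
        · exact ⟨u, mem_inter.2 ⟨huX, hu'⟩⟩
        · exact ⟨v, mem_inter.2 ⟨hvX, hv'⟩⟩
      by_cases hc : X ⊆ S ∪ {a, b}
      · have hD := h.q.red G X hX e
        have hDA : (core G ∩ X.sym2).erase e ⊆ A := by
          intro g hg
          rw [mem_erase, mem_inter] at hg
          obtain ⟨hge, hgc, hgX⟩ := hg
          rw [mem_core] at hgc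
          induction g using Sym2.ind with
          | _ x y =>
            rw [mem_edges_mk] at hgc
            rw [mk_mem_sym2] at hgX
            by_cases hxy : x ∈ S ∨ y ∈ S
            · apply mem_insert_of_mem
              rw [mem_erase, mem_inc_mk]
              exact ⟨hge, hgc.1, hxy⟩
            · rw [not_or] at hxy
              have h1 := h.not_mem_S (hc hgX.1) hxy.1
              have h2 := h.not_mem_S (hc hgX.2) hxy.2
              have hxyne := hgc.1.ne
              have : s(x, y) = s(a, b) := by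
                rcases h1 with rfl | rfl <;> rcases h2 with rfl | rfl
                · exact absurd rfl hxyne
                · rfl
                · exact Sym2.eq_swap
                · exact absurd rfl hxyne
              rw [this]
              exact mem_insert_self _ _
        apply rk_insert_cl hDA
        have hsub : insert s(u, v) ((core G ∩ X.sym2).erase e) ⊆ X.sym2 := by
          intro g hg
          rcases mem_insert.1 hg with rfl | hg
          · rw [mk_mem_sym2]
            exact ⟨huX, hvX⟩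
          · exact (mem_inter.1 (mem_of_mem_erase hg)).2
        have h4 := h.q.card4 G X hX
        have h5 := rk_inside_le _ X (by omega) hsub
        have h6 := rk_mono (subset_insert s(u, v) ((core G ∩ X.sym2).erase e))
        omega
      · obtain ⟨_, _, h2, h3, h4⟩ := h.cross hX hXS hc
        have hD := h4 e
        have hDA : insert s(a, b) ((core G ∩ X.sym2 ∩ inc G S).erase e) ⊆ A := by
          intro g hg
          rcases mem_insert.1 hg with rfl | hg
          · exact mem_insert_self _ _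
          · apply mem_insert_of_mem
            rw [mem_erase] at hg ⊢
            exact ⟨hg.1, (mem_inter.1 hg.2).2⟩
        apply rk_insert_cl hDA
        obtain ⟨haX, hbX, _⟩ := h.cross hX hXS hc
        have hsub : insert s(u, v) (insert s(a, b) ((core G ∩ X.sym2 ∩ inc G S).erase e)) ⊆
            (X ∩ (S ∪ {a, b})).sym2 := by
          intro g hg
          rcases mem_insert.1 hg with rfl | hg
          · rw [mk_mem_sym2, mem_inter, mem_inter]
            exact ⟨⟨huX, hu⟩, ⟨hvX, hv⟩⟩
          rcases mem_insert.1 hg with rfl | hg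
          · rw [mk_mem_sym2, mem_inter, mem_inter]
            exact ⟨⟨haX, by simp⟩, ⟨hbX, by simp⟩⟩
          · rw [mem_erase, mem_inter, mem_inter] at hg
            obtain ⟨_, ⟨_, hg2⟩, hg3⟩ := hg
            have hg4 := inc_subset_sym2 S hg3
            rw [h.hN] at hg4
            induction g using Sym2.ind with
            | _ x y =>
              rw [mk_mem_sym2] at hg2 hg4 ⊢
              rw [mem_inter, mem_inter]
              exact ⟨⟨hg2.1, hg4.1⟩, ⟨hg2.2, hg4.2⟩⟩
        have h5 := rk_inside_le _ (X ∩ (S ∪ {a, b})) (by omega) hsub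
        have h6 := rk_mono (subset_insert s(u, v)
          (insert s(a, b) ((core G ∩ X.sym2 ∩ inc G S).erase e)))
        omega
  have h1 := rk_union_cl A ((edges (aux G S a b)).erase e) hcl
  have h2 := rk_mono (subset_union_right (s₁ := A) (s₂ := (edges (aux G S a b)).erase e))
  omega

/-- (5) -/
theorem rank_erase_sub (h : Setup G S a b) {S' : Finset V} (hS' : S' ⊆ S) (e : Sym2 V) :
    2 * S'.card ≤ rk ((inc G S').erase e) := by
  classical
  have h1 := h.rank_erase e
  have hcard : ((S ∪ {a, b}) \ S').card + S'.card = (S ∪ {a, b}).card :=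
    card_sdiff_add_card_eq_card (hS'.trans subset_union_left)
  have hS2 := h.cardX0
  have hle := card_le_card hS'
  have hsub : insert s(a, b) ((inc G S).erase e) ⊆
      ((inc G S').erase e) ∪ (insert s(a, b) ((inc G S).erase e) ∩ ((S ∪ {a, b}) \ S').sym2) := by
    intro g hg
    rw [mem_union]
    by_cases hgS : g ∈ (inc G S').erase e
    · exact Or.inl hgS
    · right
      rw [mem_inter]
      refine ⟨hg, ?_⟩
      rcases mem_insert.1 hg with rfl | hg
      · rw [mk_mem_sym2, mem_sdiff, mem_sdiff]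
        exact ⟨⟨by simp, fun hx => h.haS (hS' hx)⟩, ⟨by simp, fun hx => h.hbS (hS' hx)⟩⟩
      · rw [mem_erase] at hg
        have hg4 := inc_subset_sym2 S hg.2
        rw [h.hN] at hg4
        induction g using Sym2.ind with
        | _ x y =>
          rw [mem_erase, mem_inc_mk] at hgS
          rw [mem_inc_mk] at hg
          rw [mk_mem_sym2] at hg4 ⊢
          rw [mem_sdiff, mem_sdiff]
          refine ⟨⟨hg4.1, ?_⟩, ⟨hg4.2, ?_⟩⟩
          · intro hx
            exact hgS ⟨hg.1, hg.2.1, Or.inl hx⟩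
          · intro hx
            exact hgS ⟨hg.1, hg.2.1, Or.inr hx⟩
  have h2 := rk_mono hsub
  have h3 := rk_union_le ((inc G S').erase e)
    (insert s(a, b) ((inc G S).erase e) ∩ ((S ∪ {a, b}) \ S').sym2)
  have h4 := rk_inside_le (insert s(a, b) ((inc G S).erase e) ∩ ((S ∪ {a, b}) \ S').sym2)
    ((S ∪ {a, b}) \ S') (by omega) inter_subset_right
  omega

theorem feasA (h : Setup G S a b) : FeasA G S := by
  intro S' hS' h0
  by_contra hlt
  have hnb : ∀ S'' ⊆ S, S''.Nonempty → S'' ∪ nbr G S'' = S ∪ {a, b} ∨ 3 ≤ (nbr G S'').card := by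
    intro S'' hS'' h0''
    by_cases heq : S'' = S
    · left
      rw [heq, h.hN]
    · right
      exact h.hsmall S'' (Finset.ssubset_iff_subset_ne.2 ⟨hS'', heq⟩) h0''
  have hne : ∃ e, e ∈ inc G S' := by
    have h1 : (nbr G S').Nonempty := by
      rw [← card_pos]
      by_cases heq : S' = S
      · rw [heq, h.hN, card_pair h.hab]
        omega
      · have := h.hsmall S' (Finset.ssubset_iff_subset_ne.2 ⟨hS', heq⟩) h0
        omega
    obtain ⟨v, hv⟩ := h1
    obtain ⟨_, u, hu, huv⟩ := mem_nbr.1 hv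
    exact ⟨s(u, v), mem_inc_mk.2 ⟨huv, Or.inl hu⟩⟩
  obtain ⟨e, _⟩ := hne
  have h1 := h.rank_erase_sub hS' e
  have h2 := rk_mono (erase_subset e (inc G S'))
  have ht : rk (inc G S') = 2 * S'.card := by omega
  refine tight_false G (S ∪ {a, b}) S' h0 ?_ ?_ ht ?_
  · rw [h.cardX0]
    have := card_le_card hS'
    omega
  · intro S'' hS'' h0''
    exact hnb S'' (hS''.trans hS') h0''
  · intro f _
    have h3 := h.rank_erase_sub hS' f
    have h4 := rk_mono (erase_subset f (inc G S'))
    omega

end Setup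

end ModQD

theorem feasA_of_fill_of (q : ModQD.Hyp V) {G : SimpleGraph V} {S : Finset V} {a b : V}
    (hab : a ≠ b) (hS : S.Nonempty) (hN : nbr G S = {a, b}) (hA : FeasA (fill G) S)
    (hsmall : ∀ S' ⊂ S, S'.Nonempty → 3 ≤ (nbr G S').card) : FeasA G S :=
  ModQD.Setup.feasA ⟨q, hab, hS, hN, hA, hsmall⟩

end Pool.Agent.Helper36.Pin
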