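import Pool.Agent.Helper5.Pin.D2
import Pool.Agent.Helper22.Pin.QB

/-!
# PQ-D: feasibility of the completed graph gives feasibility of the graph
-/

namespace Pool.Agent.Helper36.Pin

open Finset Module

variable {V : Type} [Fintype V] [DecidableEq V]

theorem feasA_of_fill {G : SimpleGraph V} {S : Finset V} {a b : V} (hab : a ≠ b)
    (hS : S.Nonempty) (hN : nbr G S = {a, b}) (hA : FeasA (fill G) S)
    (hsmall : ∀ S' ⊂ S, S'.Nonempty → 3 ≤ (nbr G S').card) : FeasA G S :=
  feasA_of_fill_of ⟨comps_blocks, fun _ _ h => block_card h, fun _ _ h e => block_redundant h e,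
    rk_parts, rk_inc_fill⟩ hab hS hN hA hsmall

end Pool.Agent.Helper36.Pin
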